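import Pool.Agent.Q244.DM6

/-! MP_943595: principal minors of `B + ω C` in characteristic 2. -/

set_option autoImplicit false

open Matrix
open scoped NNReal

namespace Pool.Agent.Results.MP_943595_co.HermitianChar2

open Pool.Agent.Q244.DM

/-- Let `K` be a field of characteristic 2 with a valuation `ν : K → ℝ ∪ {∞}` and an involutive
automorphism `σ` preserving `ν`. If `B` and `C` are Hermitian, `C` has rank one and `ω` is any
element of `K`, then the valuations of the principal minors of `B + ω C` form a valuated
Delta-matroid. -/
theorem result (K : Type) [Field K] [CharP K 2] (ν : AddValuation K (WithTop ℝ))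
    (σ : K ≃+* K) (hσ : ∀ a, σ (σ a) = a) (hν : ∀ a, ν (σ a) = ν a) (n : ℕ)
    (B C : Matrix (Fin n) (Fin n) K) (hB : ∀ i j, B j i = σ (B i j))
    (hC : ∀ i j, C j i = σ (C i j)) (hrank : C.rank = 1) (ω : K) :
    IsValuatedDeltaMatroid (fun S : Finset (Fin n) =>
      ν (((B + ω • C).submatrix (Subtype.val : {i // i ∈ S} → Fin n)
        (Subtype.val : {i // i ∈ S} → Fin n)).det)) := by
  letI : StarRing K :=
    { star := σ
      star_involutive := hσ
      star_mul := fun x y => by
        show σ (x * y) = σ y * σ x
        rw [map_mul, mul_comm]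
      star_add := fun x y => map_add σ x y }
  have hstar : ∀ a : K, star a = σ a := fun _ => rfl
  have hneg : ∀ a : K, -a = a := fun a => CharTwo.neg_eq a
  have hB' : Bᴴ = -B := by
    ext i j
    rw [conjTranspose_apply, Matrix.neg_apply, hstar, hneg, hB j i]
  have hC' : Cᴴ = -C := by
    ext i j
    rw [conjTranspose_apply, Matrix.neg_apply, hstar, hneg, hC j i]
  exact isVDM_of_gv ν (B + ω • C) (fun c hc S T hST h =>
    exchange_affine (mulV ν) (fun a => by rw [mulV_apply, mulV_apply, hstar, hν]) B C hB' hC'
      hrank.le ω c hc S T hST h)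

end Pool.Agent.Results.MP_943595_co.HermitianChar2
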